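import Pool.Agent.H438R3.BSD.Gen3

/-! The partial Euler products at `1/2` of quadratic Dirichlet `L`-functions. -/

set_option autoImplicit false

open Complex Filter Topology Finset

namespace Pool.Agent.H234R4.Dir

open Pool.Agent.H438R3.BSD Pool.Agent.H438R3.BSD.Gen

variable {N : ℕ} [NeZero N] (χ : DirichletCharacter ℂ N)

/-- the real value at `p` -/
noncomputable def ps (p : ℕ) : ℝ := (χ (p : ZMod N)).re

lemma val (h2 : χ ^ 2 = 1) (p : ℕ) : (ps χ p = 0 ∧ χ (p : ZMod N) = 0 ∧ ¬ IsUnit (p : ZMod N)) ∨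
    (ps χ p = 1 ∧ χ (p : ZMod N) = 1 ∧ IsUnit (p : ZMod N)) ∨
    (ps χ p = -1 ∧ χ (p : ZMod N) = -1 ∧ IsUnit (p : ZMod N)) := by
  unfold ps
  by_cases hu : IsUnit (p : ZMod N)
  · right
    have h3 : (χ (p : ZMod N)) ^ 2 = 1 := by
      rw [← MulChar.pow_apply' χ two_ne_zero, h2, MulChar.one_apply hu]
    have h4 : (χ (p : ZMod N) - 1) * (χ (p : ZMod N) + 1) = 0 := by
      linear_combination h3
    rcases mul_eq_zero.1 h4 with h | h
    · left
      have h5 : χ (p : ZMod N) = 1 := by linear_combination h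
      rw [h5]; simp [hu]
    · right
      have h5 : χ (p : ZMod N) = -1 := by linear_combination h
      rw [h5]; simp [hu]
  · left
    rw [MulChar.map_nonunit χ hu]
    simp [hu]

lemma ps_cast (h2 : χ ^ 2 = 1) (p : ℕ) : ((ps χ p : ℝ) : ℂ) = χ (p : ZMod N) := by
  rcases val χ h2 p with h | h | h <;> rw [h.1, h.2.1] <;> simp

lemma ps_abs (h2 : χ ^ 2 = 1) (p : ℕ) : |ps χ p| ≤ 1 := by
  rcases val χ h2 p with h | h | h <;> rw [h.1] <;> simp

/-- the coefficients -/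
noncomputable def cD (p m : ℕ) : ℝ := ps χ p ^ m * (p : ℝ) ^ ((m : ℝ) / 2)

lemma cD_le (h2 : χ ^ 2 = 1) (p : ℕ) (m : ℕ) :
    |cD χ p m| ≤ 1 * (p : ℝ) ^ ((m : ℝ) / 2) := by
  unfold cD
  rw [abs_mul, abs_pow, abs_of_nonneg (show (0 : ℝ) ≤ (p : ℝ) ^ ((m : ℝ) / 2) by positivity)]
  refine mul_le_mul_of_nonneg_right ?_ (by positivity)
  exact pow_le_one₀ (abs_nonneg _) (ps_abs χ h2 p)

lemma locD (h2 : χ ^ 2 = 1) : Loc (LLc Nat.Prime (cD χ)) (ellc Nat.Prime (cD χ)) (4 * 1) :=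
  locC (fun p hp => hp) zero_le_one (fun p _ m _ => cD_le χ h2 p m)

/-- the logarithm of the Euler factor -/
lemma LL_eq (h2 : χ ^ 2 = 1) {p : ℕ} (hp : p.Prime) {s : ℂ} (hs : 1 / 2 < s.re) :
    exp (LLc Nat.Prime (cD χ) p s) = (1 - χ (p : ZMod N) * (p : ℂ) ^ (-(s - 1 / 2)))⁻¹ := by
  have hpc : (p : ℂ) ≠ 0 := by exact_mod_cast hp.ne_zero
  have hp1 : (1 : ℝ) < p := by exact_mod_cast hp.one_lt
  have hp0 : (0 : ℝ) < p := by linarith
  set z : ℂ := χ (p : ZMod N) * (p : ℂ) ^ (-(s - 1 / 2)) with hz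
  have hz1 : ‖z‖ < 1 := by
    rw [hz, norm_mul, Complex.norm_natCast_cpow_of_pos hp.pos]
    have h3 : ‖χ (p : ZMod N)‖ ≤ 1 := χ.norm_le_one _
    have h4 : (p : ℝ) ^ (-(s - 1 / 2)).re < 1 := by
      apply Real.rpow_lt_one_of_one_lt_of_neg hp1
      simp; linarith
    have h5 : (0 : ℝ) < (p : ℝ) ^ (-(s - 1 / 2)).re := Real.rpow_pos_of_pos hp0 _
    nlinarith
  have h3 := Complex.hasSum_taylorSeries_neg_log hz1
  have h4 := (hasSum_nat_add_iff' 1).2 h3
  simp only [Finset.sum_range_one, pow_zero, Nat.cast_zero, div_zero, sub_zero] at h4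
  have e : LLc Nat.Prime (cD χ) p s = -Complex.log (1 - z) := by
    unfold LLc
    rw [if_pos hp, ← h4.tsum_eq]
    refine tsum_congr fun m => ?_
    have h5 : ((cD χ p (m + 1) : ℝ) : ℂ) * (p : ℂ) ^ (-((m + 1 : ℂ) * s)) = z ^ (m + 1) := by
      unfold cD
      rw [hz, mul_pow]
      push_cast
      rw [ps_cast χ h2, mul_assoc]
      congr 1
      rw [Complex.ofReal_cpow hp0.le, ← Complex.cpow_nat_mul]
      simp only [Complex.ofReal_natCast]
      rw [← Complex.cpow_add _ _ hpc]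
      congr 1
      push_cast
      ring
    rw [h5]
    push_cast
    rfl
  rw [e, Complex.exp_neg, Complex.exp_log]
  intro h
  have : z = 1 := by linear_combination -h
  rw [this] at hz1
  simp at hz1

/-- the shifted `L`-function -/
noncomputable def FD (s : ℂ) : ℂ := DirichletCharacter.LFunction χ (s - 1 / 2)

lemma FD_diff (h1 : χ ≠ 1) : Differentiable ℂ (FD χ) :=
  (DirichletCharacter.differentiable_LFunction h1).comp (by fun_prop)

lemma prodD (h2 : χ ^ 2 = 1) (s : ℂ) (hs : 3 / 2 < s.re) :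
    HasProd (fun p : ℕ => exp (LLc Nat.Prime (cD χ) p s)) (FD χ s) := by
  have hs' : 1 < (s - 1 / 2).re := by simp; linarith
  have h1 := DirichletCharacter.LSeries_eulerProduct_hasProd χ hs'
  have hF : FD χ s = LSeries (fun n => χ (n : ZMod N)) (s - 1 / 2) := by
    unfold FD
    exact DirichletCharacter.LFunction_eq_LSeries χ hs'
  rw [hF]
  have hsupp : Function.mulSupport (fun p : ℕ => exp (LLc Nat.Prime (cD χ) p s)) ⊆
      Set.range ((↑) : Nat.Primes → ℕ) := by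
    intro p hp
    by_contra hcon
    apply hp
    have : ¬ p.Prime := fun h => hcon ⟨⟨p, h⟩, rfl⟩
    simp only
    unfold LLc
    rw [if_neg this, Complex.exp_zero]
  have h3 : HasProd ((fun p : ℕ => exp (LLc Nat.Prime (cD χ) p s)) ∘ ((↑) : Nat.Primes → ℕ))
      (LSeries (fun n => χ (n : ZMod N)) (s - 1 / 2)) := by
    have e : ((fun p : ℕ => exp (LLc Nat.Prime (cD χ) p s)) ∘ ((↑) : Nat.Primes → ℕ)) =
        fun p : Nat.Primes => (1 - χ ((p : ℕ) : ZMod N) * ((p : ℕ) : ℂ) ^ (-(s - 1 / 2)))⁻¹ := by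
      funext p
      simp only [Function.comp_apply]
      exact LL_eq χ h2 p.2 (by linarith)
    rw [e]
    exact h1
  exact (Function.Injective.hasProd_iff Subtype.val_injective (fun x hx => by
    by_contra h
    exact hx (hsupp h))).1 h3

/-- the local term is `log (1 - χ(p)/√p)` -/
lemma ell_eq (h2 : χ ^ 2 = 1) {p : ℕ} (hp : p.Prime) :
    ellc Nat.Prime (cD χ) p = Real.log (1 - ps χ p * (p : ℝ) ^ (-(1 / 2) : ℝ)) ∧
      |ps χ p * (p : ℝ) ^ (-(1 / 2) : ℝ)| ≤ 0.71 := by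
  have hp1 : (1 : ℝ) < p := by exact_mod_cast hp.one_lt
  have hp2 : (2 : ℝ) ≤ p := by exact_mod_cast hp.two_le
  have hp0 : (0 : ℝ) < p := by linarith
  have hx : |ps χ p * (p : ℝ) ^ (-(1 / 2) : ℝ)| ≤ 0.71 := by
    rw [abs_mul, abs_of_nonneg (show (0 : ℝ) ≤ (p : ℝ) ^ (-(1 / 2) : ℝ) by positivity)]
    have h3 := ps_abs χ h2 p
    have h4 := x_rpow_le hp2 (show (-(1 / 2) : ℝ) ≤ -(1 / 2) by norm_num)
    have h5 : (0 : ℝ) ≤ (p : ℝ) ^ (-(1 / 2) : ℝ) := by positivity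
    nlinarith
  refine ⟨?_, hx⟩
  have h3 := Real.hasSum_pow_div_log_of_abs_lt_one (x := ps χ p * (p : ℝ) ^ (-(1 / 2) : ℝ))
    (lt_of_le_of_lt hx (by norm_num))
  unfold ellc
  rw [if_pos hp, neg_eq_iff_eq_neg, ← h3.tsum_eq]
  refine tsum_congr fun m => ?_
  congr 1
  unfold cD
  rw [mul_pow, mul_assoc, ← Real.rpow_natCast ((p : ℝ) ^ (-(1 / 2) : ℝ)), ← Real.rpow_mul hp0.le,
    ← Real.rpow_add hp0]
  congr 2
  push_cast
  ring

end Pool.Agent.H234R4.Dir
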