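import Pool.Agent.H353R4.M11

/-! Real zeros in `(0,1)` and in `[1/2,1)`. -/

set_option autoImplicit false

open Complex Filter Topology Finset

namespace Pool.Agent.H234R4.Dir

variable {N : ℕ} [NeZero N]

open H353.LM in
/-- if `L(s,χ)` has no zero in `(0,1)` then it is positive there -/
lemma pos_of_ne_zero (χ : DirichletCharacter ℂ N) (h1 : χ ≠ 1) (h2 : χ ^ 2 = 1)
    (h : ∀ s : ℝ, 0 < s → s < 1 → χ.LFunction (s : ℂ) ≠ 0) (s : ℝ) (hs : 0 < s) :
    (χ.LFunction (s : ℂ)).im = 0 ∧ 0 < (χ.LFunction (s : ℂ)).re := by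
  obtain ⟨n, z, G, ⟨hG, hz0, hfac⟩, hz1, hGpos, hchg, K, hK⟩ := main_chi χ h1 h2
  have hL : ∀ σ : ℝ, 0 < σ → χ.LFunction (σ : ℂ)
      = (((∏ i ∈ Finset.range n, (σ - z i)) * (σ * AA G 0 σ) : ℝ) : ℂ) := by
    intro σ hσ
    rw [L_eq χ h1 h2 hσ, hfac σ hσ]
    congr 1; ring
  have hn : n = 0 := by
    by_contra hn
    have hi : 0 < n := Nat.pos_of_ne_zero hn
    apply h (z 0) (hz0 0 hi) (hz1 0 hi)
    rw [hL (z 0) (hz0 0 hi), Finset.prod_eq_zero (Finset.mem_range.2 hi) (sub_self (z 0))]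
    simp
  rw [hL s hs, hn]
  simp only [Finset.range_zero, Finset.prod_empty, one_mul]
  refine ⟨Complex.ofReal_im _, ?_⟩
  rw [Complex.ofReal_re]
  exact mul_pos hs (hGpos s hs)

lemma prim_right {χ : DirichletCharacter ℂ N} (hχ : χ.IsPrimitive) (h2 : χ ^ 2 = 1)
    (s : ℝ) (hs0 : 0 < s) (hs1 : s < 1) (h : χ.LFunction (s : ℂ) = 0) :
    χ.LFunction ((1 - s : ℝ) : ℂ) = 0 := by
  have hinv : χ⁻¹ = χ := by
    rw [inv_eq_iff_mul_eq_one, ← sq, h2]
  have hsc : (s : ℂ) ≠ 0 := by exact_mod_cast hs0.ne'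
  have h1s : ((1 - s : ℝ) : ℂ) ≠ 0 := by exact_mod_cast (by linarith : (0 : ℝ) < 1 - s).ne'
  have hg : χ.gammaFactor (s : ℂ) ≠ 0 := by
    rcases χ.even_or_odd with he | ho
    · rw [he.gammaFactor_def]
      exact Complex.Gammaℝ_ne_zero_of_re_pos (by simpa using hs0)
    · rw [ho.gammaFactor_def]
      exact Complex.Gammaℝ_ne_zero_of_re_pos (by simp; linarith)
  have e1 := DirichletCharacter.LFunction_eq_completed_div_gammaFactor χ (s : ℂ) (Or.inl hsc)
  rw [h] at e1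
  have e2 : χ.completedLFunction (s : ℂ) = 0 := by
    rcases div_eq_zero_iff.1 e1.symm with h3 | h3
    · exact h3
    · exact absurd h3 hg
  have e3 := DirichletCharacter.IsPrimitive.completedLFunction_one_sub hχ (s : ℂ)
  rw [hinv, e2, mul_zero] at e3
  rw [DirichletCharacter.LFunction_eq_completed_div_gammaFactor χ _ (Or.inl h1s)]
  have e4 : ((1 - s : ℝ) : ℂ) = 1 - (s : ℂ) := by push_cast; ring
  rw [e4, e3, zero_div]

/-- zeros in `(0,1)` give zeros in `[1/2,1)` -/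
lemma zero_right (χ : DirichletCharacter ℂ N) (h1 : χ ≠ 1) (h2 : χ ^ 2 = 1)
    (s : ℝ) (hs0 : 0 < s) (hs1 : s < 1) (h : χ.LFunction (s : ℂ) = 0) :
    ∃ t : ℝ, 1 / 2 ≤ t ∧ t < 1 ∧ χ.LFunction (t : ℂ) = 0 := by
  rcases le_or_gt (1 / 2) s with hh | hh
  · exact ⟨s, hh, hs1, h⟩
  have hcz : NeZero χ.conductor := ⟨fun h0 => NeZero.ne N (Nat.eq_zero_of_zero_dvd (h0 ▸ DirichletCharacter.conductor_dvd_level χ))⟩
  set ψ := χ.primitiveCharacter with hψ
  have hdvd : χ.conductor ∣ N := DirichletCharacter.conductor_dvd_level χ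
  have hch : DirichletCharacter.changeLevel hdvd ψ = χ :=
    DirichletCharacter.changeLevel_primitiveCharacter χ
  have hψ1 : ψ ≠ 1 := by
    intro h0
    apply h1
    rw [← hch, h0, map_one]
  have hψ2 : ψ ^ 2 = 1 := by
    apply DirichletCharacter.changeLevel_injective hdvd
    rw [map_pow, hch, map_one, h2]
  have key : ∀ u : ℂ, χ.LFunction u = ψ.LFunction u * ∏ p ∈ N.primeFactors, (1 - ψ p * p ^ (-u)) := by
    intro u
    conv_lhs => rw [← hch]
    exact DirichletCharacter.LFunction_changeLevel hdvd ψ (Or.inl hψ1)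
  have hprod : (∏ p ∈ N.primeFactors, (1 - ψ (p : ZMod χ.conductor) * (p : ℂ) ^ (-(s : ℂ)))) ≠ 0 := by
    rw [Finset.prod_ne_zero_iff]
    intro p hp h0
    have hpp := Nat.prime_of_mem_primeFactors hp
    have h3 : ‖ψ (p : ZMod χ.conductor) * (p : ℂ) ^ (-(s : ℂ))‖ = 1 := by
      have : ψ (p : ZMod χ.conductor) * (p : ℂ) ^ (-(s : ℂ)) = 1 := by linear_combination -h0
      rw [this, norm_one]
    rw [norm_mul, Complex.norm_natCast_cpow_of_pos hpp.pos] at h3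
    have h4 : ‖ψ (p : ZMod χ.conductor)‖ ≤ 1 := ψ.norm_le_one _
    have h5 : (p : ℝ) ^ (-(s : ℂ)).re < 1 := by
      apply Real.rpow_lt_one_of_one_lt_of_neg (by exact_mod_cast hpp.one_lt)
      simpa using hs0
    have h6 : (0 : ℝ) < (p : ℝ) ^ (-(s : ℂ)).re :=
      Real.rpow_pos_of_pos (by exact_mod_cast hpp.pos) _
    nlinarith
  have h3 : ψ.LFunction (s : ℂ) = 0 := by
    have := key (s : ℂ)
    rw [h] at this
    rcases mul_eq_zero.1 this.symm with h4 | h4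
    · exact h4
    · exact absurd h4 hprod
  have h4 := prim_right χ.primitiveCharacter_isPrimitive hψ2 s hs0 hs1 h3
  refine ⟨1 - s, by linarith, by linarith, ?_⟩
  rw [key, h4, zero_mul]

end Pool.Agent.H234R4.Dir
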