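import Pool.Agent.H234R4.Dir.Sums
import Pool.Agent.H234R4.Dir.Real

/-! One-sided bounds for the sums `∑ χ(p)/√p` of a quadratic character. -/

set_option autoImplicit false

open Complex Filter Topology Finset

namespace Pool.Agent.H234R4.Dir

open Pool.Agent.H438R3.BSD Pool.Agent.H438R3.BSD.Gen

variable {N : ℕ} [NeZero N] (χ : DirichletCharacter ℂ N)

lemma order_shift : analyticOrderAt (FD χ) 1 = analyticOrderAt χ.LFunction (1 / 2) := by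
  have h3 := analyticOrderAt_comp_of_deriv_ne_zero (f := χ.LFunction) (g := fun s : ℂ => s - 1 / 2)
    (z₀ := 1) (by fun_prop) (by
      have : deriv (fun s : ℂ => s - 1 / 2) 1 = 1 := by simp
      rw [this]; exact one_ne_zero)
  have e : ((1 : ℂ) / 2) = (fun s : ℂ => s - 1 / 2) 1 := by norm_num
  rw [e]
  exact h3

/-- the logarithmic mean of `SD χ n + κ log log n` -/
noncomputable def MD (κ : ℝ) (x : ℕ) : ℝ :=
  (∑ n ∈ Finset.Icc 2 x, (SD χ n + κ * Real.log (Real.log n)) / n) / Real.log x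

lemma LA_neg (κ : ℝ) (x : ℕ) :
    Gen.LA (fun n => -SD χ n - (1 / 2) * Real.log (Real.log n)) (κ - 1 / 2) x = -MD χ κ x := by
  unfold Gen.LA MD
  rw [← neg_div, ← Finset.sum_neg_distrib]
  congr 1
  refine Finset.sum_congr rfl fun n _ => ?_
  rw [← neg_div]
  congr 1
  ring

theorem main (h1 : χ ≠ 1) (h2 : χ ^ 2 = 1) :
    ∃ m : ℕ, analyticOrderAt χ.LFunction (1 / 2) = m ∧
    (∀ κ : ℝ, (κ < m + 1 / 2 ∨ ∃ ρ : ℂ, 1 / 2 < ρ.re ∧ χ.LFunction ρ = 0) → ∀ C : ℝ,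
      (∃ᶠ x : ℕ in atTop, MD χ κ x < C) ∧
      ∃ᶠ x : ℕ in atTop, SD χ x + κ * Real.log (Real.log x) < C) ∧
    ((∀ σ : ℝ, 1 / 2 < σ → σ < 1 → χ.LFunction σ ≠ 0) →
      ∀ κ : ℝ, ((m : ℝ) + 1 / 2 < κ ∨ ∃ ρ : ℂ, 1 / 2 < ρ.re ∧ χ.LFunction ρ = 0) → ∀ C : ℝ,
      (∃ᶠ x : ℕ in atTop, C < MD χ κ x) ∧
      ∃ᶠ x : ℕ in atTop, C < SD χ x + κ * Real.log (Real.log x)) ∧
    ((∃ κ : ℝ, κ < 3 / 2 ∧ ∃ C : ℝ, ∀ᶠ x : ℕ in atTop, C ≤ MD χ κ x) →
      (∀ ρ : ℂ, 1 / 2 < ρ.re → χ.LFunction ρ ≠ 0) ∧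
      ∀ s : ℝ, 0 < s → (χ.LFunction (s : ℂ)).im = 0 ∧ 0 < (χ.LFunction (s : ℂ)).re) := by
  obtain ⟨B, hB⟩ := g_near χ h2
  obtain ⟨m, hm, hA, hB'⟩ := Gen.main (locD χ h2) (FD_diff χ h1) (fun s hs => prodD χ h2 s hs)
    (fun n => -SD χ n - (1 / 2) * Real.log (Real.log n)) B hB
  rw [order_shift χ] at hm
  have hz : ∀ {P : Prop}, (P ∨ ∃ ρ : ℂ, 1 / 2 < ρ.re ∧ χ.LFunction ρ = 0) →
      P ∨ ∃ ρ : ℂ, 1 < ρ.re ∧ FD χ ρ = 0 := by
    rintro P (h | ⟨ρ, h3, h4⟩)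
    · exact Or.inl h
    · refine Or.inr ⟨ρ + 1 / 2, ?_, ?_⟩
      · have : (ρ + 1 / 2).re = ρ.re + 1 / 2 := by simp
        rw [this]; linarith
      · unfold FD
        rw [add_sub_cancel_right]
        exact h4
  have hA2 : ∀ κ : ℝ, (κ < m + 1 / 2 ∨ ∃ ρ : ℂ, 1 / 2 < ρ.re ∧ χ.LFunction ρ = 0) → ∀ C : ℝ,
      (∃ᶠ x : ℕ in atTop, MD χ κ x < C) ∧
      ∃ᶠ x : ℕ in atTop, SD χ x + κ * Real.log (Real.log x) < C := by
    intro κ hκ C
    have hκ' : (κ - 1 / 2 < m) ∨ ∃ ρ : ℂ, 1 / 2 < ρ.re ∧ χ.LFunction ρ = 0 := by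
      rcases hκ with h | h
      · left; linarith
      · exact Or.inr h
    obtain ⟨h3, h4⟩ := hA (κ - 1 / 2) (hz hκ') (-C)
    refine ⟨h3.mono fun x hx => ?_, h4.mono fun x hx => ?_⟩
    · rw [LA_neg] at hx
      linarith
    · linarith
  refine ⟨m, hm, hA2, fun hreal κ hκ C => ?_, ?_⟩
  · have hκ' : ((m : ℝ) < κ - 1 / 2) ∨ ∃ ρ : ℂ, 1 / 2 < ρ.re ∧ χ.LFunction ρ = 0 := by
      rcases hκ with h | h
      · left; linarith
      · exact Or.inr h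
    have hreal' : ∀ σ : ℝ, 1 < σ → FD χ σ ≠ 0 := by
      intro σ hσ
      unfold FD
      have e : ((σ : ℂ) - 1 / 2) = ((σ - 1 / 2 : ℝ) : ℂ) := by push_cast; ring
      rw [e]
      rcases lt_or_ge (σ - 1 / 2) 1 with h | h
      · exact hreal _ (by linarith) h
      · exact DirichletCharacter.LFunction_ne_zero_of_one_le_re χ (Or.inl h1) (by simpa using h)
    obtain ⟨h3, h4⟩ := hB' hreal' (κ - 1 / 2) (hz hκ') (-C)
    refine ⟨h3.mono fun x hx => ?_, h4.mono fun x hx => ?_⟩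
    · rw [LA_neg] at hx
      linarith
    · linarith
  · rintro ⟨κ, hκ, C, hC⟩
    have hno : ¬ (κ < m + 1 / 2 ∨ ∃ ρ : ℂ, 1 / 2 < ρ.re ∧ χ.LFunction ρ = 0) := by
      intro h
      have h3 := (hA2 κ h C).1
      apply h3
      filter_upwards [hC] with x hx
      exact not_lt.2 hx
    push Not at hno
    obtain ⟨h3, h4⟩ := hno
    refine ⟨h4, fun s hs => ?_⟩
    have hm0 : m = 0 := by
      have : (m : ℝ) < 1 := by linarith
      have h5 : m < 1 := by exact_mod_cast this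
      omega
    rw [hm0] at hm
    have hhalf : χ.LFunction (1 / 2) ≠ 0 := by
      have hd : AnalyticAt ℂ χ.LFunction (1 / 2) :=
        (DirichletCharacter.differentiable_LFunction h1).analyticAt _
      have := hd.analyticOrderAt_eq_zero.1 (by rw [hm]; rfl)
      exact this
    apply pos_of_ne_zero χ h1 h2 _ s hs
    intro t ht0 ht1 h0
    obtain ⟨u, hu1, hu2, hu3⟩ := zero_right χ h1 h2 t ht0 ht1 h0
    rcases eq_or_lt_of_le hu1 with h5 | h5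
    · apply hhalf
      rw [← hu3, ← h5]
      congr 1
      push_cast
      rfl
    · exact h4 u (by simpa using h5) hu3

end Pool.Agent.H234R4.Dir
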