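import Pool.Agent.H234R4.Dir.Basic

/-! The partial Euler products at `1/2` and the sums `∑ χ(p)/√p`. -/

set_option autoImplicit false

open Complex Filter Topology Finset

namespace Pool.Agent.H234R4.Dir

open Pool.Agent.H438R3.BSD Pool.Agent.H438R3.BSD.Gen

variable {N : ℕ} [NeZero N] (χ : DirichletCharacter ℂ N)

/-- the sum of `χ(p)/√p` over the primes `p ≤ x` -/
noncomputable def SD (x : ℕ) : ℝ := ∑ p ∈ (Finset.Icc 1 x).filter Nat.Prime, ps χ p / Real.sqrt p

lemma log_two_le {x : ℝ} (hx : |x| ≤ 0.71) : |Real.log (1 - x) + x + x ^ 2 / 2| ≤ 4 * |x| ^ 3 := by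
  have h1 := Real.abs_log_sub_add_sum_range_le (x := x) (lt_of_le_of_lt hx (by norm_num)) 2
  have e : ∑ i ∈ Finset.range 2, x ^ (i + 1) / ((i : ℝ) + 1) + Real.log (1 - x) =
      Real.log (1 - x) + x + x ^ 2 / 2 := by
    rw [Finset.sum_range_succ, Finset.sum_range_one]
    push_cast
    ring
  rw [e] at h1
  refine h1.trans ?_
  have h2 : (0.29 : ℝ) ≤ 1 - |x| := by linarith
  rw [div_le_iff₀ (by linarith)]
  have h3 : 0 ≤ |x| ^ 3 := by positivity
  have e2 : |x| ^ (2 + 1) = |x| ^ 3 := rfl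
  rw [e2]
  nlinarith

/-- `|lE + SD + (1/2) ∑ 1/p|` is bounded -/
lemma lE_near (h2 : χ ^ 2 = 1) : ∃ B : ℝ, ∀ n : ℕ,
    |lE (ellc Nat.Prime (cD χ)) n + SD χ n +
      (1 / 2) * ∑ p ∈ (Finset.Icc 1 n).filter Nat.Prime, (1 : ℝ) / p| ≤ B := by
  have hsum : Summable (fun n : ℕ => ((n : ℝ)) ^ (-(3 / 2) : ℝ)) :=
    Real.summable_nat_rpow.2 (by norm_num)
  have hfin : (∑' n : ℕ, if (n : ℕ) ∣ N then (1 : ℝ) else 0) = (∑' n : ℕ, if (n : ℕ) ∣ N then (1 : ℝ) else 0) := rfl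
  have hsN : Summable (fun n : ℕ => if n ∣ N then (1 : ℝ) else 0) := by
    apply summable_of_hasFiniteSupport
    apply (Set.finite_Iic N).subset
    intro n hn
    simp only [Function.mem_support, ne_eq, ite_eq_right_iff, one_ne_zero, imp_false, not_not] at hn
    exact Nat.le_of_dvd (NeZero.pos N) hn
  set u : ℕ → ℝ := fun n => 4 * (n : ℝ) ^ (-(3 / 2) : ℝ) + (if n ∣ N then (1 : ℝ) else 0) with hu
  have hus : Summable u := (hsum.mul_left 4).add hsN
  have hu0 : ∀ n, 0 ≤ u n := by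
    intro n
    simp only [hu]
    split_ifs <;> positivity
  have hterm : ∀ p : ℕ, p.Prime → |ellc Nat.Prime (cD χ) p + ps χ p / Real.sqrt p +
      (1 / 2) * (1 / p)| ≤ u p := by
    intro p hp
    obtain ⟨h3, h4⟩ := ell_eq χ h2 hp
    have hp0 : (0 : ℝ) < p := by exact_mod_cast hp.pos
    have hp1 : (1 : ℝ) ≤ p := by exact_mod_cast hp.one_le
    have h5 := log_two_le h4
    have e1 : (p : ℝ) ^ (-(1 / 2) : ℝ) = 1 / Real.sqrt p := by
      rw [Real.sqrt_eq_rpow, Real.rpow_neg hp0.le]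
      exact (one_div _).symm
    have e2 : (ps χ p * (p : ℝ) ^ (-(1 / 2) : ℝ)) ^ 2 = ps χ p ^ 2 / p := by
      rw [mul_pow, ← Real.rpow_natCast ((p : ℝ) ^ (-(1 / 2) : ℝ)), ← Real.rpow_mul hp0.le]
      norm_num
      rw [Real.rpow_neg_one]
      ring
    have e3 : |ps χ p * (p : ℝ) ^ (-(1 / 2) : ℝ)| ^ 3 ≤ (p : ℝ) ^ (-(3 / 2) : ℝ) := by
      rw [abs_mul, mul_pow, abs_of_nonneg (show (0 : ℝ) ≤ (p : ℝ) ^ (-(1 / 2) : ℝ) by positivity),
        ← Real.rpow_natCast ((p : ℝ) ^ (-(1 / 2) : ℝ)), ← Real.rpow_mul hp0.le]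
      have e4 : (-(1 / 2) : ℝ) * ((3 : ℕ) : ℝ) = -(3 / 2) := by norm_num
      rw [e4]
      have h6 : |ps χ p| ^ 3 ≤ 1 := pow_le_one₀ (abs_nonneg _) (ps_abs χ h2 p)
      have h7 : (0 : ℝ) ≤ (p : ℝ) ^ (-(3 / 2) : ℝ) := by positivity
      nlinarith
    have h8 : ellc Nat.Prime (cD χ) p + ps χ p / Real.sqrt p + (1 / 2) * (1 / p) =
        (Real.log (1 - ps χ p * (p : ℝ) ^ (-(1 / 2) : ℝ)) + ps χ p * (p : ℝ) ^ (-(1 / 2) : ℝ) +
          (ps χ p * (p : ℝ) ^ (-(1 / 2) : ℝ)) ^ 2 / 2) + (1 - ps χ p ^ 2) / (2 * p) := by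
      rw [h3, e2, e1]
      field_simp
      ring
    rw [h8]
    refine (abs_add_le _ _).trans ?_
    refine add_le_add (h5.trans (mul_le_mul_of_nonneg_left e3 (by norm_num))) ?_
    rcases val χ h2 p with h | h | h
    · have hdvd : p ∣ N := by
        by_contra hnd
        apply h.2.2
        rw [ZMod.isUnit_iff_coprime]
        exact (Nat.Prime.coprime_iff_not_dvd hp).2 hnd
      rw [if_pos hdvd, h.1, abs_of_nonneg (by positivity)]
      rw [div_le_one (by positivity)]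
      nlinarith
    · rw [h.1]
      have : (0 : ℝ) ≤ (if p ∣ N then (1 : ℝ) else 0) := by split_ifs <;> norm_num
      simpa using this
    · rw [h.1]
      have : (0 : ℝ) ≤ (if p ∣ N then (1 : ℝ) else 0) := by split_ifs <;> norm_num
      simpa using this
  refine ⟨∑' n, u n, fun n => ?_⟩
  have e : lE (ellc Nat.Prime (cD χ)) n + SD χ n +
      (1 / 2) * ∑ p ∈ (Finset.Icc 1 n).filter Nat.Prime, (1 : ℝ) / p =
      ∑ p ∈ (Finset.Icc 1 n).filter Nat.Prime, (ellc Nat.Prime (cD χ) p + ps χ p / Real.sqrt p +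
        (1 / 2) * (1 / p)) := by
    unfold lE SD
    rw [Finset.sum_add_distrib, Finset.sum_add_distrib, ← Finset.mul_sum]
    congr 2
    rw [Finset.sum_filter]
    refine Finset.sum_congr rfl fun p _ => ?_
    by_cases hp : p.Prime
    · rw [if_pos hp]
    · rw [if_neg hp]
      unfold ellc
      rw [if_neg hp]
  rw [e]
  refine (Finset.abs_sum_le_sum_abs _ _).trans ?_
  refine (Finset.sum_le_sum fun p hp => hterm p (Finset.mem_filter.1 hp).2).trans ?_
  exact hus.sum_le_tsum _ (fun n _ => hu0 n)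

/-- the sequence `-SD - (1/2) log log` is at bounded distance from `lE` -/
lemma g_near (h2 : χ ^ 2 = 1) : ∃ B : ℝ, ∀ n : ℕ,
    |(-SD χ n - (1 / 2) * Real.log (Real.log n)) - lE (ellc Nat.Prime (cD χ)) n| ≤ B := by
  obtain ⟨B, hB⟩ := lE_near χ h2
  obtain ⟨C1, hC1, hup⟩ := Pool.Agent.Helper256.KM.mertens_upper
  obtain ⟨C2, hC2, hlow⟩ := Pool.Agent.Helper256.KM.mertens_lower
  refine ⟨B + (C1 + C2) + 1, fun n => ?_⟩
  have h1 := hB n
  have h3 : |∑ p ∈ (Finset.Icc 1 n).filter Nat.Prime, (1 : ℝ) / p - Real.log (Real.log n)| ≤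
      C1 + C2 := by
    rcases Nat.lt_or_ge n 2 with h | h
    · have e0 : (Finset.Icc 1 n).filter Nat.Prime = ∅ := by
        rw [Finset.filter_eq_empty_iff]
        intro p hp hpp
        have := (Finset.mem_Icc.1 hp).2
        have := hpp.two_le
        omega
      rw [e0]
      have e1 : Real.log (Real.log (n : ℝ)) = 0 := by
        interval_cases n <;> simp
      rw [e1]
      simp
      positivity
    · have hy : (2 : ℝ) ≤ n := by exact_mod_cast h
      have h4 := hup n hy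
      have h5 := hlow n hy
      rw [Nat.floor_natCast] at h4 h5
      rw [abs_le]
      constructor <;> linarith
  set M := ∑ p ∈ (Finset.Icc 1 n).filter Nat.Prime, (1 : ℝ) / p with hM
  have e : (-SD χ n - (1 / 2) * Real.log (Real.log n)) - lE (ellc Nat.Prime (cD χ)) n =
      -(lE (ellc Nat.Prime (cD χ)) n + SD χ n + (1 / 2) * M) +
        (1 / 2) * (M - Real.log (Real.log n)) := by ring
  rw [e]
  refine (abs_add_le _ _).trans ?_
  rw [abs_neg, abs_mul, abs_of_pos (show (0 : ℝ) < 1 / 2 by norm_num)]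
  linarith

end Pool.Agent.H234R4.Dir
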